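import Pool.Agent.Helper95.PM.Stmts

/-!
# Molecules with many nuclei at a minimal distance: statements of the rows
-/

set_option autoImplicit false

namespace Pool.Agent.Helper95.PW

open MeasureTheory Filter

/-- separated nuclei -/
def Sep {M : ℕ} (X : Fin M → R3) (d : ℝ) : Prop := ∀ i j, i ≠ j → 4 * d ≤ nr (X i - X j)

/-- `1/|y - X j|^2`, the nuclei nearer than `d` -/
noncomputable def near2 {M : ℕ} (X : Fin M → R3) (d : ℝ) (y : R3) : ℝ :=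
  ∑ j, if nr (y - X j) < d then 1 / nr (y - X j) ^ 2 else 0

/-- `1/|y - X j|`, the nuclei nearer than `d` -/
noncomputable def near1 {M : ℕ} (X : Fin M → R3) (d : ℝ) (y : R3) : ℝ :=
  ∑ j, if nr (y - X j) < d then 1 / nr (y - X j) else 0

/-- `1/|y - X j|`, the nuclei not nearer than `d / 2` -/
noncomputable def far1 {M : ℕ} (X : Fin M → R3) (d : ℝ) (y : R3) : ℝ :=
  ∑ j, if d / 2 ≤ nr (y - X j) then 1 / nr (y - X j) else 0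

/-- the localized Morawetz function -/
noncomputable def mg (d s : ℝ) (y : R3) : ℝ :=
  Real.sqrt (y 0 ^ 2 + y 1 ^ 2 + y 2 ^ 2 + s ^ 2) *
    Real.smoothTransition (2 - 2 * (y 0 ^ 2 + y 1 ^ 2 + y 2 ^ 2) / d ^ 2)

/-- sum over the nuclei -/
noncomputable def mG {M : ℕ} (X : Fin M → R3) (d s : ℝ) (y : R3) : ℝ := ∑ j, mg d s (y - X j)

/-- row PK (packing): the cubes of side `2 d` contain at most one nucleus each. -/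
def ST_PK : Prop := ∃ C : ℝ, 0 < C ∧ ∀ (M : ℕ) (X : Fin M → R3) (d : ℝ) (y : R3), 0 < d →
  Sep X d → far1 X d y ≤ C * (M : ℝ) ^ (2 / 3 : ℝ) / d

/-- row HLOC (localized Hardy): apply HA3 to `χ_j(x k) v`. -/
def ST_HLOC : Prop := ∃ C : ℝ, 0 < C ∧ ∀ (n M : ℕ) (X : Fin M → R3) (d : ℝ) (u : Wf n), 0 < d →
  Sep X d → Sm u →
  (∀ s, Integrable (fun x : Cf n => (∑ k, near2 X d (x k)) * u s x ^ 2)) ∧
  one (near2 X d) u ≤ C * (kin u + n * sq u / d ^ 2)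

/-- row CP: bounds away from the origin, uniform in `s` (joint smoothness in `(y, s)`,
compactness; `mg = 0` for `nr y ≥ d`). -/
def ST_CP : Prop := ∀ d : ℝ, 0 < d → ∃ A : ℝ, 0 < A ∧ ∀ (s : ℝ) (y : R3), 0 < s → s ≤ d →
  d / 2 ≤ nr y → (∀ i, |pd i (mg d s) y| ≤ A) ∧ (∀ i l, |pd i (pd l (mg d s)) y| ≤ A) ∧
  |lap (lap (mg d s)) y| ≤ A

/-- row INN2: the inner region, where `mg` is `sqrt (|y|^2 + s^2)`. -/
def ST_INN2 : Prop := ∀ (d s : ℝ) (y : R3), 0 < s → 0 < d → nr y < 7 / 10 * d →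
  (∀ i, pd i (mg d s) y = y i / Real.sqrt (nr y ^ 2 + s ^ 2)) ∧
  (∀ i l, pd i (pd l (mg d s)) y = (if i = l then 1 else 0) / Real.sqrt (nr y ^ 2 + s ^ 2) -
    y i * y l / Real.sqrt (nr y ^ 2 + s ^ 2) ^ 3) ∧
  lap (lap (mg d s)) y = -2 * mor s y

/-- properties of a Morawetz function -/
structure MorF (A d s : ℝ) (g : R3 → ℝ) : Prop where
  sm : ContDiff ℝ (⊤ : ℕ∞) g
  cs : HasCompactSupport g
  out : ∀ y, d ≤ nr y → g y = 0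
  outd : ∀ i y, d ≤ nr y → pd i g y = 0
  d1 : ∀ i y, |pd i g y| ≤ A
  lp : ∀ y, nr y ≠ 0 → |lap g y| ≤ A * (if nr y < d then 1 / nr y else 0)
  hs : ∀ (y : R3) (ξ : Fin 3 → ℝ), -(A * ∑ i, ξ i ^ 2) ≤ ∑ i, ∑ l, pd i (pd l g) y * ξ i * ξ l
  bi : ∀ y, mor s y ≤ -(1 / 2) * lap (lap g) y + A * (if d / 2 ≤ nr y then 1 / nr y else 0)

/-- row MGB (from CP, INN2) -/
def ST_MGB : Prop := ∀ d : ℝ, 0 < d → ∃ A : ℝ, 1 ≤ A ∧ ∀ s : ℝ, 0 < s → s ≤ d →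
  MorF A d s (mg d s)

/-- properties of the sum -/
structure MorS {M : ℕ} (X : Fin M → R3) (A d s : ℝ) (g : R3 → ℝ) : Prop where
  sm : ContDiff ℝ (⊤ : ℕ∞) g
  cs : HasCompactSupport g
  outd : ∀ i y, (∀ j, d ≤ nr (y - X j)) → pd i g y = 0
  d1 : ∀ i y, |pd i g y| ≤ A
  lp : ∀ y, (∀ j, nr (y - X j) ≠ 0) → |lap g y| ≤ A * near1 X d y
  hs : ∀ (y : R3) (ξ : Fin 3 → ℝ), -(A * ∑ i, ξ i ^ 2) ≤ ∑ i, ∑ l, pd i (pd l g) y * ξ i * ξ l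
  bi : ∀ y, ∑ j, mor s (y - X j) ≤ -(1 / 2) * lap (lap g) y + A * far1 X d y

/-- row MGS (from MGB): at most one term of the sum is nonzero near a point -/
def ST_MGS : Prop := ∀ d : ℝ, 0 < d → ∃ A : ℝ, 1 ≤ A ∧ ∀ (M : ℕ) (X : Fin M → R3) (s : ℝ),
  Sep X d → 0 < s → s ≤ d → MorS X A d s (mG X d s)

/-- row KID: kinetic identity (only smooth functions, integration by parts) -/
def ST_KID : Prop := ∀ (n : ℕ) (g : R3 → ℝ) (u : Wf n), ContDiff ℝ (⊤ : ℕ∞) g → Sm u →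
  (∑ s, ∫ x, Pg g (u s) x * (-(∑ k, ∑ i, dv k i (dv k i (u s)) x))) =
    (∑ s, ∑ k, ∑ i, ∑ l, ∫ x, pd i (pd l g) (x k) * (dv k i (u s) x * dv k l (u s) x)) -
      1 / 4 * one (lap (lap g)) u

/-- row REPL: the repulsion (regularize `1/|x|` as `1/sqrt (|x|^2 + s^2)`, then `s → 0`;
`(∇g(x) - ∇g(y))·(x - y) ≥ -A |x - y|^2`) -/
def ST_REPL : Prop := ∀ (n : ℕ) (g : R3 → ℝ) (A : ℝ) (u : Wf n), ContDiff ℝ (⊤ : ℕ∞) g →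
  HasCompactSupport g → 0 ≤ A →
  (∀ (y : R3) (ξ : Fin 3 → ℝ), -(A * ∑ i, ξ i ^ 2) ≤ ∑ i, ∑ l, pd i (pd l g) y * ξ i * ξ l) →
  Sm u → -(A / 2 * pair u) ≤ ∑ s, ∫ x, rep x * (Pg g (u s) x * u s x)

/-- row ATTL: the attraction by one nucleus (the same regularization) -/
def ST_ATTL : Prop := ∀ (n : ℕ) (g : R3 → ℝ) (a : R3) (u : Wf n), ContDiff ℝ (⊤ : ℕ∞) g →
  HasCompactSupport g → Sm u →
  (∀ s, Integrable (fun x : Cf n => (∑ k, Real.sqrt (grd g (x k)) / nr (x k - a) ^ 2) *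
    u s x ^ 2)) ∧
  ∑ s, ∫ x, (∑ k, 1 / nr (x k - a)) * (Pg g (u s) x * u s x) ≤
    1 / 2 * one (fun y => Real.sqrt (grd g y) / nr (y - a) ^ 2) u

/-- row PGB: norm of `Pg g u` -/
def ST_PGB : Prop := ∀ (n M : ℕ) (X : Fin M → R3) (d A : ℝ) (g : R3 → ℝ) (u : Wf n), 0 < d →
  Sep X d → 0 ≤ A → ContDiff ℝ (⊤ : ℕ∞) g → (∀ i y, |pd i g y| ≤ A) →
  (∀ y, (∀ j, nr (y - X j) ≠ 0) → |lap g y| ≤ A * near1 X d y) → Sm u →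
  sq (fun s => Pg g (u s)) ≤ 7 * A ^ 2 * n * (kin u + one (near2 X d) u)

/-- row MLOC (from MGS, KID, REPL, ATTL, PGB, PK, HLOC): the localized Morawetz inequality -/
def ST_MLOC : Prop := ∀ z d : ℝ, 0 ≤ z → 0 < d → ∃ C : ℝ, 0 < C ∧ ∀ (n M : ℕ)
  (X : Fin M → R3) (Z : Fin M → ℝ) (E B0 : ℝ), 1 ≤ M → Sep X d → (∀ j, 0 ≤ Z j) →
  (∀ j, Z j ≤ z) → ∃ C' : ℝ, 0 < C' ∧ ∀ u : Wf n, Sm u → sq u ≤ 2 → kin u ≤ B0 →
  ∀ s : ℝ, 0 < s → s ≤ d → ∑ j, Z j * one (fun y => mor s (y - X j)) u ≤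
    C * (kin u + pair u + n * (M : ℝ) ^ (2 / 3 : ℝ)) + C' * Real.sqrt (resM X Z E u)

/-- row PINS: as PINM (Helper72/PM/PINM.lean), stop before the limit -/
def ST_PINS : Prop := ∃ C : ℝ, 0 < C ∧ ∀ (n : ℕ) (g : Fin 3 → R3 → ℝ) (K R ε : ℝ) (a : R3)
  (u : Wf n), (∀ m, Scale (g m) K R) → 0 < R →
  (∀ m y, nr (y - a) < R → ∀ i, pd i (g m) y = if i = m then 1 else 0) → Sm u → 0 < ε →
  ∃ J : ℕ, ∀ j : ℕ, J ≤ j →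
  -(∑ m, (one (fun y => 1 / nr (y - a)) (fun s => Pg (g m) (u s)) +
      (∑ s, ∫ x, (∑ k, 1 / nr (x k - a)) * (Pg (g m) (Pg (g m) (u s)) x * u s x)))) ≤
    C * K ^ 2 / R ^ 2 * one (fun y => 1 / nr (y - a)) u +
      one (fun y => mor (1 / ((j : ℝ) + 1)) (y - a)) u / 2 + ε

/-- row BINJ: as BINM (Helper62/PM/BINM.lean), from PINS -/
def ST_BINJ : Prop := ∃ C : ℝ, 0 < C ∧ ∀ (n M : ℕ) (X : Fin M → R3) (Z : Fin M → ℝ) (E : ℝ)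
  (g : Fin 3 → R3 → ℝ) (K R B s0 : ℝ) (S : Set R3) (u : Wf n),
  (∀ j, 0 ≤ Z j) → (∀ m, Scale (g m) K R) → 0 < R → 0 < s0 → IsClosed S →
  (∀ m y, y ∉ S → ∀ i, pd i (g m) y = 0) →
  (∀ m j y, nr (y - X j) < R → ∀ i, pd i (g m) y = if i = m then 1 else 0) → Sm u →
  (∀ s : ℝ, 0 < s → s ≤ s0 → ∑ j, Z j * one (fun y => mor s (y - X j)) u ≤ B) →
  ∑ m, (QM X Z (fun s => Pg (g m) (u s)) - E * sq (fun s => Pg (g m) (u s))) ≤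
    -(∑ m, ∑ s, ∫ x, Pg (g m) (Pg (g m) (u s)) x * (hmM X Z (u s) x - E * u s x)) +
    C * K ^ 2 * ((kin u + pair u + one (pot X Z) u) / R ^ 2 + one (ind S) u / R ^ 4) + B / 2

/-- row INLJ: as INLM (Helper25/PM/INLM.lean), from BINJ -/
def ST_INLJ : Prop := ∃ C : ℝ, 0 < C ∧ ∀ (n M : ℕ) (X : Fin M → R3) (Z : Fin M → ℝ) (E : ℝ)
  (g : Fin 3 → R3 → ℝ) (K R B : ℝ) (S : Set R3), LowM n X Z E → (∀ j, 0 ≤ Z j) → 1 ≤ K →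
  (∀ m, Scale (g m) K R) → 0 < R → IsClosed S → (∀ m y, y ∉ S → ∀ i, pd i (g m) y = 0) →
  (∀ m j y, nr (y - X j) < R → ∀ i, pd i (g m) y = if i = m then 1 else 0) →
  ∃ C' : ℝ, 0 < C' ∧ ∀ u : Wf n, Sm u → Anti u → sq u ≤ 2 →
  kin u ≤ B → pair u ≤ B → one (pot X Z) u ≤ B → dd u ≤ B → resM X Z E u ≤ 1 →
  ∀ B1 s0 : ℝ, 0 ≤ B1 → 0 < s0 →
  (∀ s : ℝ, 0 < s → s ≤ s0 → ∑ j, Z j * one (fun y => mor s (y - X j)) u ≤ B1) →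
  ∀ m, sq (fun s => Pg (g m) (u s)) ^ 2 ≤
    C * K ^ 4 * (one (ind S) u *
      ((kin u + pair u + one (pot X Z) u) / R ^ 2 + one (ind S) u / R ^ 4 + B1)) +
      C' * Real.sqrt (resM X Z E u)

/-- row E0: dilations of an antisymmetric function -/
def ST_E0 : Prop := ∀ (n M : ℕ) (X : Fin M → R3) (Z : Fin M → ℝ) (E : ℝ), 1 ≤ n →
  (∀ j, 0 ≤ Z j) → LowM n X Z E → E ≤ 0

/-- row POTB (from PK, HLOC) -/
def ST_POTB : Prop := ∀ z d : ℝ, 0 ≤ z → 0 < d → ∃ C : ℝ, 0 < C ∧ ∀ (n M : ℕ)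
  (X : Fin M → R3) (Z : Fin M → ℝ) (u : Wf n), 1 ≤ M → Sep X d → (∀ j, 0 ≤ Z j) →
  (∀ j, Z j ≤ z) → Sm u → sq u ≤ 2 →
  one (pot X Z) u ≤ C * (kin u + n * (M : ℝ) ^ (2 / 3 : ℝ))

/-- row LIMG: as LIM (Helper10/PW/LIM.lean) -/
def ST_LIMG : Prop := ∀ (n : ℕ) (φ : Wf n) (G : Fin n → Fin 3 → Wf n) (m : Fin 3),
  (∀ s, MemLp (φ s) 2) → (∀ k i s, MemLp (G k i s) 2) →
  Tendsto (fun L : ℕ => sq (PG (gm m (L + 1)) φ G)) atTop (nhds (sq (fun s x => ∑ k, G k m s x)))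

/-- row MTH (from MLOC, INLJ, E0, POTB, LIMG, CUT, APXM, LMTM, QHM, INTM) -/
def ST_MTH : Prop := ∀ z d : ℝ, 0 ≤ z → 0 < d → ∃ C : ℝ, 0 < C ∧ ∀ (n M : ℕ)
  (X : Fin M → R3) (Z : Fin M → ℝ) (E : ℝ) (φ : Wf n) (G : Fin n → Fin 3 → Wf n), 1 ≤ n →
  1 ≤ M → Nuc n Z → (∀ j, Z j ≤ z) → Sep X d → GroundM n X Z E φ G →
  mom G ^ 2 ≤ C * n * (kinG G + n * (M : ℝ) ^ (2 / 3 : ℝ))

end Pool.Agent.Helper95.PW
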