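import Pool.Agent.Helper95.PN.Stmts
import Pool.Agent.Helper3.PW.En
import Pool.Agent.Helper3.PW.Bump

/-! Row E0: the energy of a molecule is not positive. -/

set_option autoImplicit false

namespace Pool.Agent.Helper95.PW

open MeasureTheory Filter Pool.Agent.Helper3.PW

/-- centres of the bumps -/
noncomputable def e0c (R : ℝ) {n : ℕ} (l : Fin n) : R3 := fun i => if i = 0 then R * ((l : ℕ) + 1) else 0

theorem e0_nr (y : R3) : |y 0| ≤ nr y := by
  unfold nr
  apply Real.abs_le_sqrt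
  nlinarith [sq_nonneg (y 1), sq_nonneg (y 2)]

theorem e0_tr (n : ℕ) (ε : ℝ) (hε : 0 < ε) : Tr n 0 ε := by
  obtain ⟨b, hb, hbc, hbs, hb1⟩ := bump_exists
  obtain ⟨κ, hκ⟩ : ∃ κ : ℝ, κ = ∑ i, ∫ y, pd i b y ^ 2 := ⟨_, rfl⟩
  have hκ0 : 0 ≤ κ := by
    rw [hκ]
    exact Finset.sum_nonneg fun i _ => integral_nonneg fun y => sq_nonneg _
  obtain ⟨R, hR⟩ : ∃ R : ℝ, R = 1 + (n * κ + 2 * n ^ 2) / ε := ⟨_, rfl⟩
  have hW : 0 ≤ n * κ + 2 * (n : ℝ) ^ 2 := by positivity
  have hR1 : 1 ≤ R := by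
    rw [hR]
    have : 0 ≤ (n * κ + 2 * (n : ℝ) ^ 2) / ε := by positivity
    linarith
  have hR0 : 0 < R := by linarith
  have hsup : ∀ (l : Fin n) (y : R3), y ∈ tsupport (fb b (1 / R) (e0c R l)) →
      |y 0 - R * ((l : ℕ) + 1)| ≤ R / 4 := by
    intro l y hy
    have h1 := fb_supp b hbs (1 / R) (by positivity) (e0c R l) y hy
    have h2 : ‖(y - e0c R l) 0‖ ≤ ‖y - e0c R l‖ := norm_le_pi_norm _ 0
    have h3 : (y - e0c R l) 0 = y 0 - R * ((l : ℕ) + 1) := by
      simp [e0c]
    rw [h3, Real.norm_eq_abs] at h2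
    have h4 : 1 / (4 * (1 / R)) = R / 4 := by field_simp
    rw [h4] at h1
    exact h2.trans h1
  have hsep : ∀ (k l : Fin n) (y z : R3), k ≠ l → y ∈ tsupport (fb b (1 / R) (e0c R k)) →
      z ∈ tsupport (fb b (1 / R) (e0c R l)) → R / 2 ≤ |y 0 - z 0| := by
    intro k l y z hkl hy hz
    have h1 := abs_le.1 (hsup k y hy)
    have h2 := abs_le.1 (hsup l z hz)
    have hkl' : (k : ℕ) ≠ (l : ℕ) := fun h => hkl (Fin.ext h)
    rcases Nat.lt_or_gt_of_ne hkl' with h | h
    · have h3 : ((k : ℕ) : ℝ) + 1 ≤ ((l : ℕ) : ℝ) := by exact_mod_cast h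
      rw [abs_sub_comm]
      refine le_trans ?_ (le_abs_self _)
      nlinarith
    · have h3 : ((l : ℕ) : ℝ) + 1 ≤ ((k : ℕ) : ℝ) := by exact_mod_cast h
      refine le_trans ?_ (le_abs_self _)
      nlinarith
  have h := trial_energy (n := n) (fun l => fb b (1 / R) (e0c R l))
    (fun l => fb_contDiff b hb _ _) (fun l => fb_compact b hbs _ (by positivity) _)
    (fun i j y hi hj => by
      by_contra hij
      have := hsep i j y y hij hi hj
      rw [sub_self, abs_zero] at this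
      linarith)
    (fun l => fb_sq b hb1 _ (by positivity) _) (fun _ => (1 / R) ^ 2 * κ)
    (fun l => by rw [fb_kin b hb _ (by positivity), hκ]) (2 * n ^ 2 / R) 0 le_rfl
    (fun x hx => by
      unfold rep
      have hb : ∀ k ∈ Finset.univ, (∑ l, if k < l then 1 / nr (x k - x l) else 0) ≤
          (n : ℝ) * (2 / R) := by
        intro k _
        refine (Finset.sum_le_card_nsmul _ _ (2 / R) fun l _ => ?_).trans (by simp)
        split_ifs with hkl
        · have h1 := hsep k l (x k) (x l) hkl.ne (hx k) (hx l)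
          have h2 : R / 2 ≤ nr (x k - x l) := h1.trans (e0_nr (x k - x l))
          rw [div_le_div_iff₀ (by linarith) hR0]
          linarith
        · positivity
      refine (Finset.sum_le_card_nsmul _ _ _ hb).trans (le_of_eq ?_)
      rw [Finset.card_univ, Fintype.card_fin, nsmul_eq_mul]
      ring)
    (fun x _ => by
      unfold att
      exact Finset.sum_nonneg fun k _ => div_nonneg zero_le_one (Real.sqrt_nonneg _))
    (R / 2) (by positivity)
    (fun l y hy => by
      have h1 := abs_le.1 (hsup l y hy)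
      refine le_trans ?_ (e0_nr y)
      refine le_trans ?_ (le_abs_self _)
      have : (0 : ℝ) ≤ (l : ℕ) := Nat.cast_nonneg _
      nlinarith)
    0 le_rfl
  refine h.mono ?_
  have h1 : ∑ _l : Fin n, (1 / R) ^ 2 * κ ≤ n * κ / R := by
    rw [Finset.sum_const, Finset.card_univ, Fintype.card_fin, nsmul_eq_mul]
    have h2 : (1 / R) ^ 2 ≤ 1 / R := by
      have : 1 / R ≤ 1 := by rw [div_le_one hR0]; exact hR1
      have h3 : 0 ≤ 1 / R := by positivity
      nlinarith
    calc (n : ℝ) * ((1 / R) ^ 2 * κ) ≤ n * ((1 / R) * κ) := by gcongr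
      _ = n * κ / R := by ring
  have h2 : n * κ / R + 2 * (n : ℝ) ^ 2 / R ≤ ε := by
    rw [← add_div, div_le_iff₀ hR0, hR]
    have : ε * (1 + (n * κ + 2 * (n : ℝ) ^ 2) / ε) = ε + (n * κ + 2 * (n : ℝ) ^ 2) := by
      field_simp
    rw [this]
    linarith
  linarith

theorem st_E0 : ST_E0 := by
  intro n M X Z E _ hZ hlow
  refine le_of_forall_pos_le_add fun ε hε => ?_
  obtain ⟨ψ, h1, h2, h3, h4⟩ := e0_tr n ε hε
  have h5 := hlow ψ h1 h2
  have h6 : 0 ≤ one (pot X Z) ψ := by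
    unfold one
    refine Finset.sum_nonneg fun s _ => integral_nonneg fun x => ?_
    refine mul_nonneg (Finset.sum_nonneg fun k _ => ?_) (sq_nonneg _)
    unfold pot
    exact Finset.sum_nonneg fun j _ => div_nonneg (hZ j) (Real.sqrt_nonneg _)
  have h7 : QM X Z ψ ≤ ε * sq ψ := by
    have : Q 0 ψ = kin ψ + pair ψ := by unfold Q; ring
    rw [this] at h4
    unfold QM
    linarith
  have h8 : E * sq ψ ≤ ε * sq ψ := h5.trans h7
  have := le_of_mul_le_mul_right h8 h3
  linarith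

end Pool.Agent.Helper95.PW
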