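import Pool.Agent.Helper58.PM.AIDM
import Pool.Agent.Helper81.PM.APXM
import Pool.Agent.Helper89.PM.CIDM
import Pool.Agent.Helper49.PM.CSQM
import Pool.Agent.Helper13.PM.HA3
import Pool.Agent.Helper24.PM.HFM
import Pool.Agent.Helper67.PM.INTM
import Pool.Agent.Helper92.PM.KINM
import Pool.Agent.Helper4.PM.LMTM
import Pool.Agent.Helper80.PM.MORM
import Pool.Agent.Helper88.PM.QHM
import Pool.Agent.Helper14.PW.POE
import Pool.Agent.Helper84.PW.HA2
import Pool.Agent.Helper67.PW.HA1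
import Pool.Agent.Helper13.PW.INT
import Pool.Agent.Helper2.PW.IBP
import Pool.Agent.Helper2.PW.STB
import Pool.Agent.Helper2.PW.PAN
import Pool.Agent.Helper90.PW.ERR
import Pool.Agent.Helper12.PW.CUT
import Pool.Agent.Helper59.PN.PK
import Pool.Agent.Helper7.PN.HLOC
import Pool.Agent.Helper33.PN.CP
import Pool.Agent.Helper31.PN.INN2
import Pool.Agent.Helper27.PN.MGB
import Pool.Agent.Helper74.PN.MGS
import Pool.Agent.Helper87.PN.KID
import Pool.Agent.Helper47.PN.REPL
import Pool.Agent.Helper49.PN.ATTL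
import Pool.Agent.Helper63.PN.PGB
import Pool.Agent.Helper71.PN.MLOC
import Pool.Agent.Helper83.PN.PINS
import Pool.Agent.Helper11.PN.BINJ
import Pool.Agent.Helper40.PN.INLJ
import Pool.Agent.Helper95.PN.E0
import Pool.Agent.Helper39.PN.POTB
import Pool.Agent.Helper83.PN.LIMG
import Pool.Agent.Helper53.PN.MTH

set_option autoImplicit false

namespace Pool.Agent.Helper95.PW

/-- the project with many nuclei -/
theorem allN : ST_INTM ∧ ST_MTH := by
  have IBP : ST_IBP := Pool.Agent.Helper2.PW.st_IBP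
  have STB : ST_STB := Pool.Agent.Helper2.PW.st_STB
  have PAN : ST_PAN := Pool.Agent.Helper2.PW.st_PAN IBP
  have HA1 : ST_HA1 := st_HA1
  have HA2 : ST_HA2 := st_HA2
  have HA3 : ST_HA3 := st_HA3
  have INT : ST_INT := st_INT HA1 HA2
  have INTM : ST_INTM := st_INTM HA3 HA2
  have QHM : ST_QHM := st_QHM IBP INTM
  have CSQM : ST_CSQM := st_CSQM QHM INTM
  have HFM : ST_HFM := st_HFM
  have AIDM : ST_AIDM := st_AIDM QHM HFM PAN STB INTM
  have CIDM : ST_CIDM := st_CIDM QHM HFM STB INTM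
  have KINM : ST_KINM := st_KINM IBP PAN STB
  have POE : ST_POE := Pool.Agent.Helper14.PW.st_POE PAN STB INT HA2
  have ERR : ST_ERR := st_ERR
  have MORM : ST_MORM := st_MORM IBP HA3 INTM QHM
  have APXM : ST_APXM := st_APXM HA3 HA2 INTM
  have LMTM : ST_LMTM := st_LMTM
  have HLOC : ST_HLOC := st_HLOC HA3
  have PK : ST_PK := st_PK
  have MGS : ST_MGS := st_MGS (st_MGB st_CP st_INN2)
  have KID : ST_KID := st_KID IBP PAN STB
  have REPL : ST_REPL := st_REPL IBP INT HA2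
  have ATTL : ST_ATTL := Pool.Agent.Helper49.PN.st_ATTL IBP HA3 INTM
  have PGB : ST_PGB := st_PGB HLOC
  have MLOC : ST_MLOC := st_MLOC MGS KID REPL ATTL PGB PK HLOC PAN STB INTM
  have PINS : ST_PINS := st_PINS PAN STB INTM
  have BINJ : ST_BINJ := st_BINJ QHM PAN STB KINM POE PINS INTM
  have INLJ : ST_INLJ := st_INLJ CSQM STB AIDM CIDM BINJ ERR INTM MORM
  have POTB : ST_POTB := st_POTB PK HLOC INTM
  have LIMG : ST_LIMG := st_LIMG st_CUT
  exact ⟨INTM, st_MTH MLOC INLJ st_E0 POTB LIMG st_CUT APXM LMTM QHM INTM⟩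

end Pool.Agent.Helper95.PW
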