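import Pool.Agent.Helper39.PN.POTB
import Pool.Agent.Helper33.PM.Com

/-! # The kinetic energy of a molecule with separated nuclei -/

set_option autoImplicit false

namespace Pool.Agent.Helper95.PW

open MeasureTheory Filter

theorem potb_split (h1 : ST_PK) (h2 : ST_HLOC) (h3 : ST_INTM) : ∃ C1 C2 : ℝ, 0 < C1 ∧ 0 < C2 ∧
    ∀ (z d : ℝ), 0 ≤ z → 0 < d → ∀ (n M : ℕ) (X : Fin M → R3) (Z : Fin M → ℝ) (u : Wf n),
    1 ≤ M → Sep X d → (∀ j, 0 ≤ Z j) → (∀ j, Z j ≤ z) → Sm u → sq u ≤ 2 →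
    one (pot X Z) u ≤ z * d * C2 * kin u +
      (2 * z * C2 / d + 2 * z * C1 / d) * (n * (M : ℝ) ^ (2 / 3 : ℝ)) := by
  obtain ⟨C1, hC1, H1⟩ := h1
  obtain ⟨C2, hC2, H2⟩ := h2
  refine ⟨C1, C2, hC1, hC2, ?_⟩
  intro z d hz hd
  intro n M X Z u hM hSep _ hZz hu hsq
  obtain ⟨hint, hone⟩ := H2 n M X d u hd hSep hu
  obtain ⟨P, hP⟩ : ∃ P : ℝ, P = (M : ℝ) ^ (2 / 3 : ℝ) := ⟨_, rfl⟩
  have hM1 : (1 : ℝ) ≤ P := by
    rw [hP]
    exact Real.one_le_rpow (by exact_mod_cast hM) (by norm_num)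
  have hpt : ∀ y, pot X Z y ≤ z * d * near2 X d y + z * (C1 * P / d) := by
    intro y
    have h4 := H1 M X d y hd hSep
    rw [← hP] at h4
    have h5 : pot X Z y ≤ z * d * near2 X d y + z * far1 X d y := by
      unfold pot near2 far1
      rw [Finset.mul_sum, Finset.mul_sum, ← Finset.sum_add_distrib]
      exact Finset.sum_le_sum fun j _ =>
        potb_term z d (nr (y - X j)) (Z j) hz hd (Real.sqrt_nonneg _) (hZz j)
    have h6 := mul_le_mul_of_nonneg_left h4 hz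
    linarith
  have hus : ∀ s, Integrable (fun x : Cf n => u s x ^ 2) := by
    intro s
    have hc : Continuous (fun x : Cf n => u s x ^ 2) := (hu s).1.continuous.pow 2
    refine hc.integrable_of_hasCompactSupport ?_
    exact (hu s).2.comp_left (g := fun t : ℝ => t ^ 2) (by norm_num)
  have hbound : one (pot X Z) u ≤ z * d * one (near2 X d) u + n * (z * (C1 * P / d)) * sq u := by
    unfold one sq
    rw [Finset.mul_sum, Finset.mul_sum, ← Finset.sum_add_distrib]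
    refine Finset.sum_le_sum fun s _ => ?_
    rw [← integral_const_mul, ← integral_const_mul,
      ← integral_add ((hint s).const_mul _) ((hus s).const_mul _)]
    refine integral_mono ?_ (((hint s).const_mul _).add ((hus s).const_mul _)) ?_
    · have h7 := (h3 n M X Z (u s) (u s) (hu s).1 (hu s).2 (hu s).1 (hu s).2).1
      have h8 : (fun x : Cf n => (∑ k, pot X Z (x k)) * u s x ^ 2) =
          fun x : Cf n => (∑ k, pot X Z (x k)) * (u s x * u s x) := by
        funext x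
        rw [pow_two]
      rw [h8]
      exact h7
    · intro x
      have h6 : ∑ k, pot X Z (x k) ≤
          z * d * ∑ k, near2 X d (x k) + n * (z * (C1 * P / d)) := by
        rw [Finset.mul_sum]
        calc ∑ k, pot X Z (x k) ≤ ∑ k : Fin n, (z * d * near2 X d (x k) + z * (C1 * P / d)) :=
              Finset.sum_le_sum fun k _ => hpt (x k)
          _ = ∑ k : Fin n, z * d * near2 X d (x k) + n * (z * (C1 * P / d)) := by
              rw [Finset.sum_add_distrib, Finset.sum_const, Finset.card_univ, Fintype.card_fin,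
                nsmul_eq_mul]
      have h7 := mul_le_mul_of_nonneg_right h6 (sq_nonneg (u s x))
      calc (∑ k, pot X Z (x k)) * u s x ^ 2 ≤
            (z * d * ∑ k, near2 X d (x k) + n * (z * (C1 * P / d))) * u s x ^ 2 := h7
        _ = z * d * ((∑ k, near2 X d (x k)) * u s x ^ 2) +
            n * (z * (C1 * P / d)) * u s x ^ 2 := by ring
  have hkin : 0 ≤ kin u := by
    unfold kin sq
    refine Finset.sum_nonneg fun k _ => Finset.sum_nonneg fun i _ =>
      Finset.sum_nonneg fun s _ => integral_nonneg fun x => sq_nonneg _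
  have hn : (0 : ℝ) ≤ n := Nat.cast_nonneg n
  have hP0 : 0 ≤ P := by linarith
  have h9 : z * d * one (near2 X d) u ≤ z * d * (C2 * (kin u + n * 2 / d ^ 2)) := by
    refine mul_le_mul_of_nonneg_left ?_ (by positivity)
    refine hone.trans ?_
    refine mul_le_mul_of_nonneg_left ?_ hC2.le
    have : (n : ℝ) * sq u / d ^ 2 ≤ n * 2 / d ^ 2 :=
      div_le_div_of_nonneg_right (mul_le_mul_of_nonneg_left hsq hn) (by positivity)
    linarith
  have h10 : n * (z * (C1 * P / d)) * sq u ≤ n * (z * (C1 * P / d)) * 2 :=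
    mul_le_mul_of_nonneg_left hsq (by positivity)
  have h11 : z * d * (C2 * (kin u + n * 2 / d ^ 2)) =
      z * d * C2 * kin u + 2 * z * C2 / d * n := by
    field_simp
  have h12 : n * (z * (C1 * P / d)) * 2 = 2 * z * C1 / d * (n * P) := by
    field_simp
  have h13 : 2 * z * C2 / d * n ≤ 2 * z * C2 / d * (n * P) := by
    refine mul_le_mul_of_nonneg_left ?_ (by positivity)
    nlinarith
  rw [← hP]
  have h18 : (2 * z * C2 / d + 2 * z * C1 / d) * (n * P) =
      2 * z * C2 / d * (n * P) + 2 * z * C1 / d * (n * P) := by ring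
  rw [h18]
  linarith

/-- bound of the kinetic energy -/
def ST_TB : Prop := ∀ z d : ℝ, 0 ≤ z → 0 < d → ∃ C : ℝ, 0 < C ∧ ∀ (n M : ℕ)
  (X : Fin M → R3) (Z : Fin M → ℝ) (E : ℝ) (φ : Wf n) (G : Fin n → Fin 3 → Wf n), 1 ≤ n →
  1 ≤ M → Nuc n Z → (∀ j, Z j ≤ z) → Sep X d → GroundM n X Z E φ G →
  kinG G ≤ C * (n * (M : ℝ) ^ (2 / 3 : ℝ))

theorem st_TB (h1 : ST_PK) (h2 : ST_HLOC) (h3 : ST_E0) (h7 : ST_APXM) (h8 : ST_LMTM)
    (h9 : ST_QHM) (h10 : ST_INTM) : ST_TB := by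
  obtain ⟨C1, C2, hC1, hC2, HP⟩ := potb_split h1 h2 h10
  intro z d hz hd
  obtain ⟨d', hd'⟩ : ∃ d' : ℝ, d' = min d (1 / (2 * (z + 1) * C2)) := ⟨_, rfl⟩
  have hd'0 : 0 < d' := by rw [hd']; exact lt_min hd (by positivity)
  have hle : d' ≤ d := by rw [hd']; exact min_le_left _ _
  have hle2 : d' ≤ 1 / (2 * (z + 1) * C2) := by rw [hd']; exact min_le_right _ _
  obtain ⟨A, hA⟩ : ∃ A : ℝ, A = 2 * z * C2 / d' + 2 * z * C1 / d' := ⟨_, rfl⟩
  have hA0 : 0 ≤ A := by rw [hA]; positivity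
  refine ⟨2 * A + 2, by positivity, ?_⟩
  intro n M X Z E φ G hn hM hNuc hZz hSep hG
  have hZ0 := hNuc.1
  have hSep' : Sep X d' := fun i j hij => by
    have := hSep i j hij
    linarith
  have hE : E ≤ 0 := h3 n M X Z E hn hZ0 hG.low
  obtain ⟨u, hu⟩ := h7 n M X Z E φ G hG
  obtain ⟨l1, l2, l3⟩ := h8 n M X Z E φ G u hG hu
  obtain ⟨hsm, _, _, ⟨M0, hM0⟩, hres⟩ := hu
  obtain ⟨W, hW⟩ : ∃ W : ℝ, W = n * (M : ℝ) ^ (2 / 3 : ℝ) := ⟨_, rfl⟩
  have hn1 : (1:ℝ) ≤ n := by exact_mod_cast hn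
  have hM1 : (1:ℝ) ≤ M := by exact_mod_cast hM
  have hW1 : 1 ≤ W := by
    rw [hW]
    have := Real.one_le_rpow hM1 (by norm_num : (0:ℝ) ≤ 2 / 3)
    nlinarith
  rw [← hW]
  have e1 : ∀ᶠ j in atTop, sq (u j) ≤ 2 := l1.eventually_le_const (by norm_num : (1:ℝ) < 2)
  have e2 : ∀ᶠ j in atTop, resM X Z E (u j) ≤ 1 / 2 :=
    hres.eventually_le_const (by norm_num : (0:ℝ) < 1 / 2)
  refine le_of_tendsto l2 ?_
  filter_upwards [e1, e2] with j hj1 hj2
  have hQ := innm_Q_le_one h9 h10 X Z E (u j) (hsm j).1 hE hj1 hj2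
  have p1 := com_kin_nonneg (u j)
  have p2 := com_pair_nonneg (u j)
  have q1 := HP z d' hz hd'0 n M X Z (u j) hM hSep' hZ0 hZz (hsm j).1 hj1
  rw [← hW, ← hA] at q1
  have hc : z * d' * C2 ≤ 1 / 2 := by
    calc z * d' * C2 ≤ z * (1 / (2 * (z + 1) * C2)) * C2 := by gcongr
      _ = z / (z + 1) * (1 / 2) := by field_simp
      _ ≤ 1 * (1 / 2) := by
        refine mul_le_mul_of_nonneg_right ?_ (by norm_num)
        rw [div_le_one (by positivity)]
        linarith
      _ = 1 / 2 := by ring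
  have q2 := mul_le_mul_of_nonneg_right hc p1
  unfold QM at hQ
  nlinarith

end Pool.Agent.Helper95.PW
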