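import Pool.Agent.Helper95.PN.All
import Pool.Agent.Helper95.PN.TB
import Pool.Agent.Helper95.PM.Mol

set_option autoImplicit false

namespace Pool.Agent.Helper95.PW

theorem allTB : ST_TB := by
  have IBP : ST_IBP := Pool.Agent.Helper2.PW.st_IBP
  have HA1 : ST_HA1 := st_HA1
  have HA2 : ST_HA2 := st_HA2
  have HA3 : ST_HA3 := st_HA3
  have INTM : ST_INTM := st_INTM HA3 HA2
  have QHM : ST_QHM := st_QHM IBP INTM
  have APXM : ST_APXM := st_APXM HA3 HA2 INTM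
  exact st_TB st_PK (st_HLOC HA3) st_E0 APXM st_LMTM QHM INTM

/-- molecules with bounded charges and separated nuclei -/
theorem mol_many (z d : ℝ) (hz : 0 < z) (hd : 0 < d) : ∃ C : ℝ, 0 < C ∧ ∀ (n M : ℕ)
    (X : Fin M → R3) (Z : Fin M → ℕ) (E : ℝ) (φ : Wf n) (G : Fin n → Fin 3 → Wf n), 1 ≤ M →
    MolGround n X Z E φ G → (∀ j, (Z j : ℝ) ≤ z) → (∀ i j, i ≠ j → d ≤ nr (X i - X j)) →
    mom G ≤ C * n * (M : ℝ) ^ (1 / 3 : ℝ) := by
  obtain ⟨hI, hN⟩ := allN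
  obtain ⟨C1, hC1, h1⟩ := hN z (d / 4) hz.le (by positivity)
  obtain ⟨C2, hC2, h2⟩ := allTB z (d / 4) hz.le (by positivity)
  refine ⟨Real.sqrt (C1 * (C2 + 1)), by positivity, ?_⟩
  intro n M X Z E φ G hM h hZ hX
  have hn : 1 ≤ n := by
    rw [← h.neutral]
    have h0 : Z ⟨0, hM⟩ ≤ ∑ j, Z j := Finset.single_le_sum (fun _ _ => Nat.zero_le _)
      (Finset.mem_univ _)
    exact (h.charge _).trans h0
  have hS : Sep X (d / 4) := by
    intro i j hij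
    have := hX i j hij
    linarith
  have e1 := h1 n M X (fun j => (Z j : ℝ)) (E - nuc X Z) φ G hn hM (mol_nuc h) hZ hS
    (mol_ground hI h)
  have e2 := h2 n M X (fun j => (Z j : ℝ)) (E - nuc X Z) φ G hn hM (mol_nuc h) hZ hS
    (mol_ground hI h)
  obtain ⟨m, hm⟩ : ∃ m : ℝ, m = (M : ℝ) ^ (1 / 3 : ℝ) := ⟨_, rfl⟩
  have hm0 : 0 ≤ m := by rw [hm]; positivity
  have hm2 : (M : ℝ) ^ (2 / 3 : ℝ) = m ^ 2 := by
    rw [hm, ← Real.rpow_natCast, ← Real.rpow_mul (Nat.cast_nonneg M)]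
    norm_num
  rw [hm2] at e1 e2
  rw [← hm]
  have hn0 : (0 : ℝ) ≤ n := Nat.cast_nonneg n
  have e3 : mom G ^ 2 ≤ C1 * (C2 + 1) * (n * m) ^ 2 := by
    calc mom G ^ 2 ≤ C1 * n * (kinG G + n * m ^ 2) := e1
      _ ≤ C1 * n * (C2 * (n * m ^ 2) + n * m ^ 2) := by gcongr
      _ = C1 * (C2 + 1) * (n * m) ^ 2 := by ring
  have e4 := Real.le_sqrt_of_sq_le e3
  rw [Real.sqrt_mul (by positivity), Real.sqrt_sq (by positivity)] at e4
  calc mom G ≤ Real.sqrt (C1 * (C2 + 1)) * (n * m) := e4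
    _ = Real.sqrt (C1 * (C2 + 1)) * n * m := by ring

end Pool.Agent.Helper95.PW
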